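import Pool.Agent.Q253.IT.BeNeg

/-!
# Twin primes at the indices `k ^ d n`: the threshold of information

Let `A` be any random set of integers and let `D(x)` be the relative entropy of `A ∩ [3, x)` with respect to Cramér's
model of the primes. We determine the least exponent `θ` such that `D(x) ≤ x ^ θ` does not exclude that the questions
have a negative answer for `A`: it is `1 / 2` for Q1 (a), `1 / 3` for Q1 (b) and `1 / 3` for Q2, and in general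
`β / (1 + d β)` for the places `p_(k ^ d n) + s`, `k ≤ C n ^ β`.
-/

set_option autoImplicit false

namespace Pool.Agent.Results.MP_be93de_nt.InformationThreshold

open MeasureTheory Filter Pool.Agent.Q120.ET Pool.Agent.Q120.MF Pool.Agent.Q197.CI Pool.Agent.Q253.IT
open scoped Topology

/-- The relative entropy of `A ∩ [3, x)` with respect to Cramér's model. -/
noncomputable def D {Ω : Type*} [MeasurableSpace Ω] (μ : Measure Ω) (A : Ω → Set ℕ) (x : ℕ) : ℝ :=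
  relEntropy μ A (Finset.Ico 3 x)

open Classical in
/-- The number of `k ≤ C n ^ β` for which `p_(k ^ d n) + s` is in `S`, where `p_m` is the `m`-th element of `S`. -/
noncomputable def num (S : Set ℕ) (s d : ℕ) (C β : ℝ) (n : ℕ) : ℕ :=
  ((Finset.Icc 1 ⌊C * (n : ℝ) ^ β⌋₊).filter (fun k => el S (k ^ d * n) + s ∈ S)).card

/-- Q1 (a) for `n` and the set `S` in place of the primes. -/
def Q1a (S : Set ℕ) (n : ℕ) : Prop := ∃ k : ℕ, 1 ≤ k ∧ k ≤ n ∧ el S (k * n) + 2 ∈ S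

/-- Q1 (b) for `n` and the set `S` in place of the primes. -/
def Q1b (S : Set ℕ) (n : ℕ) : Prop := ∃ k : ℕ, 1 ≤ k ∧ k ≤ n ∧ el S (k ^ 2 * n) + 2 ∈ S

/-- Q2 for `n` and the set `S` in place of the primes. -/
def Q2 (S : Set ℕ) (n : ℕ) : Prop := ∃ k : ℕ, 1 ≤ k ∧ (k : ℝ) < 3 * √(n : ℝ) + 6 ∧ el S (k * n) + 2 ∈ S

/-- `θ0` is the threshold of information for the property `Q`: if `D(x) ≤ x ^ θ` for all large `x` and `θ < θ0` then
`Q` holds almost surely for all large `n`; but for some random set `D(x) ≤ K x ^ θ0` for all `x` and, almost surely, `Q`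
fails for all powers `n` of two. -/
def Threshold.{u} (Q : Set ℕ → ℕ → Prop) (θ0 : ℝ) : Prop :=
  (∀ (Ω : Type u) [MeasurableSpace Ω] (μ : Measure Ω) [IsProbabilityMeasure μ] (A : Ω → Set ℕ), IsRandomSet A →
    ∀ θ : ℝ, θ < θ0 → (∀ᶠ x : ℕ in atTop, D μ A x ≤ (x : ℝ) ^ θ) → ∀ᵐ ω ∂μ, ∀ᶠ n : ℕ in atTop, Q (A ω) n) ∧
  ∃ (Ω : Type) (_ : MeasurableSpace Ω) (μ : Measure Ω) (_ : IsProbabilityMeasure μ) (A : Ω → Set ℕ), IsRandomSet A ∧
    (∃ K : ℝ, ∀ x : ℕ, D μ A x ≤ K * (x : ℝ) ^ θ0) ∧ ∀ᵐ ω ∂μ, (A ω).Infinite ∧ ∀ j : ℕ, ¬ Q (A ω) (2 ^ j)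

theorem result.{u} :
    (∀ (s d : ℕ) (C β : ℝ), 1 ≤ s → 1 ≤ d → 0 < C → 0 < β →
      (∀ (Ω : Type u) [MeasurableSpace Ω] (μ : Measure Ω) [IsProbabilityMeasure μ] (A : Ω → Set ℕ), IsRandomSet A →
        ∀ θ : ℝ, θ < β / (1 + d * β) → (∀ᶠ x : ℕ in atTop, D μ A x ≤ (x : ℝ) ^ θ) →
          ∀ᵐ ω ∂μ, (A ω).Infinite ∧
            Tendsto (fun n : ℕ => (num (A ω) s d C β n : ℝ) * Real.log n / (n : ℝ) ^ β) atTop (𝓝 (C / (1 + d * β)))) ∧
      ∃ (Ω : Type) (_ : MeasurableSpace Ω) (μ : Measure Ω) (_ : IsProbabilityMeasure μ) (A : Ω → Set ℕ), IsRandomSet A ∧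
        (∃ K : ℝ, ∀ x : ℕ, D μ A x ≤ K * (x : ℝ) ^ (β / (1 + d * β))) ∧
        ∀ᵐ ω ∂μ, (A ω).Infinite ∧ ∀ j k : ℕ, 1 ≤ k → (k : ℝ) ≤ C * ((2 ^ j : ℕ) : ℝ) ^ β →
          el (A ω) (k ^ d * 2 ^ j) + s ∉ A ω) ∧
    Threshold.{u} Q1a (1 / 2) ∧ Threshold.{u} Q1b (1 / 3) ∧ Threshold.{u} Q2 (1 / 3) := by
  have hpos : ∀ (s d : ℕ) (C β : ℝ), 1 ≤ s → 1 ≤ d → 0 < C → 0 < β →
      ∀ (Ω : Type u) [MeasurableSpace Ω] (μ : Measure Ω) [IsProbabilityMeasure μ] (A : Ω → Set ℕ), IsRandomSet A →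
        ∀ θ : ℝ, θ < β / (1 + d * β) → (∀ᶠ x : ℕ in atTop, D μ A x ≤ (x : ℝ) ^ θ) →
          ∀ᵐ ω ∂μ, (A ω).Infinite ∧
            Tendsto (fun n : ℕ => (num (A ω) s d C β n : ℝ) * Real.log n / (n : ℝ) ^ β) atTop (𝓝 (C / (1 + d * β))) := by
    intro s d C β hs hd hC hβ Ω _ μ _ A hA θ hθ hent
    have h0 : 0 < β / (1 + d * β) := by positivity
    refine info_place hA hs hd hC hβ (θ := max θ 0) (le_max_right _ _) (max_lt hθ h0) ?_
    filter_upwards [hent, eventually_ge_atTop 1] with x h1 h2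
    exact h1.trans (Real.rpow_le_rpow_of_exponent_le (by exact_mod_cast h2) (le_max_left _ _))
  have hneg : ∀ (s d : ℕ) (C β : ℝ), 1 ≤ s → 1 ≤ d → 0 < C → 0 < β →
      ∃ (Ω : Type) (_ : MeasurableSpace Ω) (μ : Measure Ω) (_ : IsProbabilityMeasure μ) (A : Ω → Set ℕ), IsRandomSet A ∧
        (∃ K : ℝ, ∀ x : ℕ, D μ A x ≤ K * (x : ℝ) ^ (β / (1 + d * β))) ∧
        ∀ᵐ ω ∂μ, (A ω).Infinite ∧ ∀ j k : ℕ, 1 ≤ k → (k : ℝ) ≤ C * ((2 ^ j : ℕ) : ℝ) ^ β →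
          el (A ω) (k ^ d * 2 ^ j) + s ∉ A ω := by
    intro s d C β hs hd hC hβ
    obtain ⟨h1, h2, h3⟩ := neg_place isCramer s hs hd hC hβ
    exact ⟨ℕ → Bool, inferInstance, cramerMeasure, inferInstance, _, h1, h2, h3⟩
  have hev : ∀ (s d : ℕ) (C β : ℝ), 0 < C → 0 < β → ∀ S : Set ℕ,
      Tendsto (fun n : ℕ => (num S s d C β n : ℝ) * Real.log n / (n : ℝ) ^ β) atTop (𝓝 (C / (1 + d * β))) →
      ∀ᶠ n : ℕ in atTop, ∃ k : ℕ, 1 ≤ k ∧ (k : ℝ) ≤ C * (n : ℝ) ^ β ∧ el S (k ^ d * n) + s ∈ S := by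
    intro s d C β hC hβ S h
    classical
    have h0 : 0 < C / (1 + d * β) := by positivity
    filter_upwards [h.eventually_const_lt h0] with n h1
    have h2 : num S s d C β n ≠ 0 := by
      intro h3
      rw [h3] at h1
      simp at h1
    unfold num at h2
    obtain ⟨k, hk⟩ := Finset.card_ne_zero.1 h2
    rw [Finset.mem_filter, Finset.mem_Icc] at hk
    exact ⟨k, hk.1.1, (Nat.cast_le.2 hk.1.2).trans (Nat.floor_le (by positivity)), hk.2⟩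
  refine ⟨fun s d C β hs hd hC hβ => ⟨hpos s d C β hs hd hC hβ, hneg s d C β hs hd hC hβ⟩, ⟨?_, ?_⟩, ⟨?_, ?_⟩, ⟨?_, ?_⟩⟩
  · intro Ω _ μ _ A hA θ hθ hent
    filter_upwards [hpos 2 1 1 1 (by norm_num) le_rfl one_pos one_pos Ω μ A hA θ (by norm_num at hθ ⊢; exact hθ) hent]
      with ω h1
    filter_upwards [hev 2 1 1 1 one_pos one_pos _ h1.2] with n h2
    obtain ⟨k, hk1, hk2, hk3⟩ := h2
    rw [one_mul, Real.rpow_one] at hk2
    rw [pow_one] at hk3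
    exact ⟨k, hk1, by exact_mod_cast hk2, hk3⟩
  · obtain ⟨Ω, i1, μ, i2, A, h1, h2, h3⟩ := hneg 2 1 1 1 (by norm_num) le_rfl one_pos one_pos
    refine ⟨Ω, i1, μ, i2, A, h1, ?_, ?_⟩
    · norm_num at h2 ⊢
      exact h2
    · filter_upwards [h3] with ω h4
      refine ⟨h4.1, fun j h5 => ?_⟩
      obtain ⟨k, hk1, hk2, hk3⟩ := h5
      refine h4.2 j k hk1 ?_ (by rw [pow_one]; exact hk3)
      rw [one_mul, Real.rpow_one]
      exact_mod_cast hk2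
  · intro Ω _ μ _ A hA θ hθ hent
    filter_upwards [hpos 2 2 1 1 (by norm_num) (by norm_num) one_pos one_pos Ω μ A hA θ (by norm_num at hθ ⊢; exact hθ) hent]
      with ω h1
    filter_upwards [hev 2 2 1 1 one_pos one_pos _ h1.2] with n h2
    obtain ⟨k, hk1, hk2, hk3⟩ := h2
    rw [one_mul, Real.rpow_one] at hk2
    exact ⟨k, hk1, by exact_mod_cast hk2, hk3⟩
  · obtain ⟨Ω, i1, μ, i2, A, h1, h2, h3⟩ := hneg 2 2 1 1 (by norm_num) (by norm_num) one_pos one_pos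
    refine ⟨Ω, i1, μ, i2, A, h1, ?_, ?_⟩
    · norm_num at h2 ⊢
      exact h2
    · filter_upwards [h3] with ω h4
      refine ⟨h4.1, fun j h5 => ?_⟩
      obtain ⟨k, hk1, hk2, hk3⟩ := h5
      refine h4.2 j k hk1 ?_ hk3
      rw [one_mul, Real.rpow_one]
      exact_mod_cast hk2
  · intro Ω _ μ _ A hA θ hθ hent
    filter_upwards [hpos 2 1 3 (1 / 2) (by norm_num) le_rfl (by norm_num) (by norm_num) Ω μ A hA θ
      (by norm_num at hθ ⊢; exact hθ) hent] with ω h1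
    filter_upwards [hev 2 1 3 (1 / 2) (by norm_num) (by norm_num) _ h1.2] with n h2
    obtain ⟨k, hk1, hk2, hk3⟩ := h2
    rw [← Real.sqrt_eq_rpow] at hk2
    rw [pow_one] at hk3
    exact ⟨k, hk1, by linarith, hk3⟩
  · obtain ⟨Ω, i1, μ, i2, A, h1, h2, h3⟩ := hneg 2 1 9 (1 / 2) (by norm_num) le_rfl (by norm_num) (by norm_num)
    refine ⟨Ω, i1, μ, i2, A, h1, ?_, ?_⟩
    · norm_num at h2 ⊢
      exact h2
    · filter_upwards [h3] with ω h4
      refine ⟨h4.1, fun j h5 => ?_⟩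
      obtain ⟨k, hk1, hk2, hk3⟩ := h5
      refine h4.2 j k hk1 ?_ (by rw [pow_one]; exact hk3)
      rw [← Real.sqrt_eq_rpow]
      have h6 : (1 : ℝ) ≤ √((2 ^ j : ℕ) : ℝ) := by
        rw [Real.one_le_sqrt]
        exact_mod_cast Nat.one_le_two_pow
      linarith

end Pool.Agent.Results.MP_be93de_nt.InformationThreshold
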