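import Pool.Agent.Q197.SP.Rbe9

/-!
# Twin primes at the indices `k ^ d n` in Cramér's random model: the typical values of the least `k`

`A` is Cramér's random model of the primes and `el S m` the `m`-th element `≥ 3` of `S`, the model of the `m`-th prime.
For `s, d ≥ 1` let `k(n)` be the least `k ≥ 1` for which `el A (k ^ d n) + s` is an element of `A`. Almost surely, for
every `t ≥ 0`, the density of the `n` with `k(n) > t log n` is `exp (-t)`.
-/

set_option autoImplicit false

namespace Pool.Agent.Results.MP_be93de_nt.LeastIndexDistribution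

open MeasureTheory Filter Pool.Agent.Q120.MF Pool.Agent.Q197.CI Pool.Agent.Q197.SP.Rbe9
open scoped Topology

theorem result :
    (∃ (Ω : Type) (_ : MeasurableSpace Ω) (μ : Measure Ω) (A : Ω → Set ℕ), IsProbabilityMeasure μ ∧ IsCramer μ A) ∧
    ∀ (Ω : Type) [MeasurableSpace Ω] (μ : Measure Ω) [IsProbabilityMeasure μ] (A : Ω → Set ℕ), IsCramer μ A →
      ∀ s d : ℕ, 1 ≤ s → 1 ≤ d → ∀ t : ℝ, 0 ≤ t → ∀ᵐ ω ∂μ,
        Tendsto (fun N : ℕ => count (A ω) s d (fun n => t * Real.log n) N / N) atTop (𝓝 (Real.exp (-t))) := by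
  refine ⟨all_parts.1, fun Ω _ μ _ A hA s d hs hd => ?_⟩
  exact ((all_parts.2 Ω μ A hA).2 s d hs hd).2.2.2.2

end Pool.Agent.Results.MP_be93de_nt.LeastIndexDistribution
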