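import Pool.Agent.Q197.SP.Rbe9

/-!
# Twin primes at the indices `k ^ d n` in Cramér's random model: the largest values of the least `k`

`A` is Cramér's random model of the primes and `el S m` the `m`-th element `≥ 3` of `S`, the model of the `m`-th prime.
For `s, d ≥ 1` let `k(n)` be the least `k ≥ 1` for which `el A (k ^ d n) + s` is an element of `A`. The largest values of
`k(n)` are `log² n + (2 d + 2 + o(1)) log n log log n`, and we find the number of the `n ≤ N` with
`k(n) > log² n + b log n log log n` asymptotically, for every `b ≤ 2 d + 2`.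
-/

set_option autoImplicit false

namespace Pool.Agent.Results.MP_be93de_nt.LeastIndexSecondOrder

open MeasureTheory Filter Pool.Agent.Q120.MF Pool.Agent.Q197.CI Pool.Agent.Q197.SP.Rbe9
open scoped Topology

theorem result :
    (∃ (Ω : Type) (_ : MeasurableSpace Ω) (μ : Measure Ω) (A : Ω → Set ℕ), IsProbabilityMeasure μ ∧ IsCramer μ A) ∧
    ∀ (Ω : Type) [MeasurableSpace Ω] (μ : Measure Ω) [IsProbabilityMeasure μ] (A : Ω → Set ℕ), IsCramer μ A →
      -- the question, for all large `n`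
      (∀ᵐ ω ∂μ, (A ω).Infinite ∧ ∀ᶠ n : ℕ in atTop, Question (A ω) n) ∧
      ∀ s d : ℕ, 1 ≤ s → 1 ≤ d →
        (∀ b : ℝ, 2 * d + 2 < b → ∀ᵐ ω ∂μ, ∀ᶠ n : ℕ in atTop,
          ¬ Fails (A ω) s d n (Real.log n ^ 2 + b * (Real.log n * Real.log (Real.log n)))) ∧
        (∀ᵐ ω ∂μ, Tendsto (fun N : ℕ =>
          count (A ω) s d (fun n => Real.log n ^ 2 + (2 * d + 2) * (Real.log n * Real.log (Real.log n))) N /
            Real.log (Real.log N)) atTop (𝓝 (Real.exp (-(d + 1 / 2))))) ∧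
        (∀ b : ℝ, b < 2 * d + 2 → ∀ᵐ ω ∂μ, Tendsto (fun N : ℕ =>
          count (A ω) s d (fun n => Real.log n ^ 2 + b * (Real.log n * Real.log (Real.log n))) N /
            Real.log N ^ (2 * d + 2 - b)) atTop (𝓝 (Real.exp (-(d + 1 / 2)) / (2 * d + 2 - b)))) := by
  refine ⟨all_parts.1, fun Ω _ μ _ A hA => ?_⟩
  obtain ⟨h0, h1⟩ := all_parts.2 Ω μ A hA
  refine ⟨h0, fun s d hs hd => ?_⟩
  obtain ⟨h2, h3, h4, _, _⟩ := h1 s d hs hd
  exact ⟨h2, h3, h4⟩

end Pool.Agent.Results.MP_be93de_nt.LeastIndexSecondOrder
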